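import Mathlib

/-!
# Lorenz links: the inequality (R)

`t = exp (-2 ζ)`, `ζ = a + i b`, `|1 - t ^ k| = 2 exp (-k a) |sinh (k ζ)|`.
-/

set_option autoImplicit false

namespace Pool.Agent.Helper27.LZ

open Complex

/-! ### elementary estimates -/

theorem abs_sin_nat (b : ℝ) (m : ℕ) : |Real.sin (m * b)| ≤ m * |Real.sin b| := by
  induction m with
  | zero => simp
  | succ m ih =>
    have e : ((m + 1 : ℕ) : ℝ) * b = m * b + b := by push_cast; ring
    rw [e, Real.sin_add]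
    have h1 : |Real.sin (m * b) * Real.cos b| ≤ |Real.sin (m * b)| := by
      rw [abs_mul]
      exact mul_le_of_le_one_right (abs_nonneg _) (Real.abs_cos_le_one b)
    have h2 : |Real.cos (m * b) * Real.sin b| ≤ |Real.sin b| := by
      rw [abs_mul]
      exact mul_le_of_le_one_left (abs_nonneg _) (Real.abs_cos_le_one _)
    refine (abs_add_le _ _).trans ?_
    push_cast
    linarith

theorem sinh_nat_le {a : ℝ} (ha : 0 ≤ a) (m : ℕ) : Real.sinh (m * a) ≤ m * Real.sinh a * Real.cosh (m * a) := by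
  induction m with
  | zero => simp
  | succ m ih =>
    have e : ((m + 1 : ℕ) : ℝ) * a = m * a + a := by push_cast; ring
    have hs : 0 ≤ Real.sinh a := Real.sinh_nonneg_iff.2 ha
    have hs2 : 0 ≤ Real.sinh (m * a) := Real.sinh_nonneg_iff.2 (by positivity)
    have hc : 0 ≤ Real.cosh a := (Real.cosh_pos a).le
    rw [e, Real.sinh_add]
    have h1 : Real.cosh (m * a) * Real.cosh a ≤ Real.cosh (m * a + a) := by
      rw [Real.cosh_add]
      nlinarith [mul_nonneg hs2 hs]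
    have h2 : Real.cosh (m * a) ≤ Real.cosh (m * a + a) := by
      rw [Real.cosh_le_cosh, abs_of_nonneg (by positivity), abs_of_nonneg (by positivity)]
      linarith
    have h3 : Real.sinh (m * a) * Real.cosh a ≤ m * Real.sinh a * Real.cosh (m * a + a) := by
      calc Real.sinh (m * a) * Real.cosh a ≤ m * Real.sinh a * Real.cosh (m * a) * Real.cosh a := by gcongr
        _ = m * Real.sinh a * (Real.cosh (m * a) * Real.cosh a) := by ring
        _ ≤ _ := by gcongr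
    have h4 : Real.cosh (m * a) * Real.sinh a ≤ Real.sinh a * Real.cosh (m * a + a) := by
      rw [mul_comm]
      gcongr
    push_cast
    nlinarith

theorem nat_mul_sinh_le {a : ℝ} (ha : 0 ≤ a) (m : ℕ) : m * Real.sinh a ≤ Real.sinh (m * a) := by
  induction m with
  | zero => simp
  | succ m ih =>
    have e : ((m + 1 : ℕ) : ℝ) * a = m * a + a := by push_cast; ring
    have hs : 0 ≤ Real.sinh a := Real.sinh_nonneg_iff.2 ha
    have hs2 : 0 ≤ Real.sinh (m * a) := Real.sinh_nonneg_iff.2 (by positivity)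
    rw [e, Real.sinh_add]
    have h1 : Real.sinh (m * a) ≤ Real.sinh (m * a) * Real.cosh a := le_mul_of_one_le_right hs2 (Real.one_le_cosh a)
    have h2 : Real.sinh a ≤ Real.cosh (m * a) * Real.sinh a := le_mul_of_one_le_left hs (Real.one_le_cosh _)
    push_cast
    linarith

/-! ### the quotient `D k = sinh (k ζ) / sinh ζ` -/

/-- `D k = sinh (k ζ) / sinh ζ` -/
noncomputable def D (ζ : ℂ) (k : ℕ) : ℂ := Complex.sinh (k * ζ) / Complex.sinh ζ

theorem D_zero (ζ : ℂ) : D ζ 0 = 0 := by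
  unfold D
  simp

theorem D_one {ζ : ℂ} (h : Complex.sinh ζ ≠ 0) : D ζ 1 = 1 := by
  unfold D
  rw [Nat.cast_one, one_mul, div_self h]

theorem D_step {ζ : ℂ} (h : Complex.sinh ζ ≠ 0) (k : ℕ) : D ζ (k + 2) = D ζ k + 2 * Complex.cosh ((k + 1 : ℕ) * ζ) := by
  unfold D
  rw [div_add' _ _ _ h]
  congr 1
  have e1 : ((k + 2 : ℕ) : ℂ) * ζ = ((k + 1 : ℕ) : ℂ) * ζ + ζ := by push_cast; ring
  have e2 : ((k : ℕ) : ℂ) * ζ = ((k + 1 : ℕ) : ℂ) * ζ - ζ := by push_cast; ring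
  rw [e1, e2, Complex.sinh_add, Complex.sinh_sub]
  ring

theorem re_ofReal_add_ofReal_mul_I (x y : ℝ) : ((x : ℂ) + (y : ℂ) * Complex.I).re = x := by simp

theorem im_ofReal_add_ofReal_mul_I (x y : ℝ) : ((x : ℂ) + (y : ℂ) * Complex.I).im = y := by simp

theorem cosh_re_im (x y : ℝ) : (Complex.cosh ((x : ℂ) + y * Complex.I)).re = Real.cosh x * Real.cos y ∧
    (Complex.cosh ((x : ℂ) + y * Complex.I)).im = Real.sinh x * Real.sin y := by
  have e : Complex.cosh ((x : ℂ) + y * Complex.I) =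
      ((Real.cosh x * Real.cos y : ℝ) : ℂ) + ((Real.sinh x * Real.sin y : ℝ) : ℂ) * Complex.I := by
    rw [Complex.cosh_add, Complex.cosh_mul_I, Complex.sinh_mul_I]
    push_cast
    ring
  rw [e]
  exact ⟨re_ofReal_add_ofReal_mul_I _ _, im_ofReal_add_ofReal_mul_I _ _⟩

theorem sinh_re_im (x y : ℝ) : (Complex.sinh ((x : ℂ) + y * Complex.I)).re = Real.sinh x * Real.cos y ∧
    (Complex.sinh ((x : ℂ) + y * Complex.I)).im = Real.cosh x * Real.sin y := by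
  have e : Complex.sinh ((x : ℂ) + y * Complex.I) =
      ((Real.sinh x * Real.cos y : ℝ) : ℂ) + ((Real.cosh x * Real.sin y : ℝ) : ℂ) * Complex.I := by
    rw [Complex.sinh_add, Complex.cosh_mul_I, Complex.sinh_mul_I]
    push_cast
    ring
  rw [e]
  exact ⟨re_ofReal_add_ofReal_mul_I _ _, im_ofReal_add_ofReal_mul_I _ _⟩

theorem nat_mul_zeta (a b : ℝ) (k : ℕ) : ((k : ℕ) : ℂ) * ((a : ℂ) + b * Complex.I) = ((k * a : ℝ) : ℂ) + ((k * b : ℝ) : ℂ) * Complex.I := by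
  push_cast
  ring

theorem D_im {a b : ℝ} (ha : 0 ≤ a) (h : Complex.sinh ((a : ℂ) + b * Complex.I) ≠ 0) {R : ℝ} (k : ℕ) (hk : k * a ≤ R) :
    |(D ((a : ℂ) + b * Complex.I) k).im| ≤ Real.cosh R * Real.sinh a * |Real.sin b| * (((k : ℝ) ^ 3 - k) / 3) := by
  induction k using Nat.strong_induction_on with
  | _ k ih =>
    match k with
    | 0 => simp [D_zero]
    | 1 => simp [D_one h]
    | k + 2 =>
      have h1 := ih k (by omega) (by
        refine le_trans ?_ hk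
        push_cast
        nlinarith)
      rw [D_step h, Complex.add_im]
      have e : (2 * Complex.cosh (((k + 1 : ℕ) : ℂ) * ((a : ℂ) + b * Complex.I))).im = 2 * (Real.sinh ((k + 1 : ℕ) * a) * Real.sin ((k + 1 : ℕ) * b)) := by
        rw [nat_mul_zeta]
        have := (cosh_re_im ((k + 1 : ℕ) * a) ((k + 1 : ℕ) * b)).2
        rw [Complex.mul_im, this]
        simp
      rw [e]
      refine (abs_add_le _ _).trans ?_
      have hs : 0 ≤ Real.sinh a := Real.sinh_nonneg_iff.2 ha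
      have h2 : |Real.sin ((k + 1 : ℕ) * b)| ≤ (k + 1 : ℕ) * |Real.sin b| := abs_sin_nat b (k + 1)
      have h3 : Real.sinh ((k + 1 : ℕ) * a) ≤ (k + 1 : ℕ) * Real.sinh a * Real.cosh R := by
        refine (sinh_nat_le ha (k + 1)).trans ?_
        gcongr
        rw [Real.cosh_le_cosh, abs_of_nonneg (by positivity)]
        refine le_trans ?_ (le_abs_self R)
        refine le_trans ?_ hk
        push_cast
        nlinarith
      have h0 : 0 ≤ Real.sinh ((k + 1 : ℕ) * a) := Real.sinh_nonneg_iff.2 (by positivity)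
      have h4 : |2 * (Real.sinh ((k + 1 : ℕ) * a) * Real.sin ((k + 1 : ℕ) * b))| ≤
          2 * (((k + 1 : ℕ) * Real.sinh a * Real.cosh R) * ((k + 1 : ℕ) * |Real.sin b|)) := by
        rw [abs_mul, abs_mul, abs_of_nonneg h0, abs_two]
        gcongr
      push_cast at h4 h1 ⊢
      nlinarith

theorem D_re {a b : ℝ} (h : Complex.sinh ((a : ℂ) + b * Complex.I) ≠ 0) (k : ℕ) (hk : (k : ℝ) * |b| ≤ 1) :
    k - b ^ 2 * (((k : ℝ) ^ 3 - k) / 6) ≤ (D ((a : ℂ) + b * Complex.I) k).re := by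
  induction k using Nat.strong_induction_on with
  | _ k ih =>
    match k with
    | 0 => simp [D_zero]
    | 1 => simp [D_one h]
    | k + 2 =>
      have hb := abs_nonneg b
      have h1 := ih k (by omega) (by
        refine le_trans ?_ hk
        push_cast
        nlinarith)
      rw [D_step h, Complex.add_re]
      have e : (2 * Complex.cosh (((k + 1 : ℕ) : ℂ) * ((a : ℂ) + b * Complex.I))).re = 2 * (Real.cosh ((k + 1 : ℕ) * a) * Real.cos ((k + 1 : ℕ) * b)) := by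
        rw [nat_mul_zeta]
        have := (cosh_re_im ((k + 1 : ℕ) * a) ((k + 1 : ℕ) * b)).1
        rw [Complex.mul_re, this]
        simp
      rw [e]
      have h2 : 1 - ((k + 1 : ℕ) * b) ^ 2 / 2 ≤ Real.cos ((k + 1 : ℕ) * b) := Real.one_sub_sq_div_two_le_cos
      have h5 : ((k + 1 : ℕ) * b) ^ 2 ≤ 1 := by
        rw [← sq_abs, abs_mul, Nat.abs_cast]
        have h6 : ((k + 1 : ℕ) : ℝ) * |b| ≤ 1 := by
          refine le_trans ?_ hk
          push_cast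
          nlinarith
        have h7 : 0 ≤ ((k + 1 : ℕ) : ℝ) * |b| := by positivity
        nlinarith
      have h3 : 0 ≤ Real.cos ((k + 1 : ℕ) * b) := by linarith
      have h4 : Real.cos ((k + 1 : ℕ) * b) ≤ Real.cosh ((k + 1 : ℕ) * a) * Real.cos ((k + 1 : ℕ) * b) :=
        le_mul_of_one_le_left h3 (Real.one_le_cosh _)
      push_cast at h1 h2 h4 ⊢
      nlinarith


/-! ### the logarithm of `t` -/

/-- the data of `t` in terms of `a = Re ζ`, `b = Im ζ`; everything that is used below -/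
structure Dat (t : ℂ) (a b : ℝ) (r : ℕ) : Prop where
  ha : 0 < a
  hb : |b| ≤ Real.pi / 2
  ht : t = Complex.exp (-2 * ((a : ℂ) + b * Complex.I))
  hn : ‖t‖ = Real.exp (-(2 * a))
  hz : Complex.sinh ((a : ℂ) + b * Complex.I) ≠ 0
  hsin : Real.sin b ^ 2 ≤ 3 * Real.sinh a ^ 2
  hr : Real.sinh (r * a) ^ 2 ≤ 1 / 8

theorem norm_one_sub_pow {t : ℂ} {a b : ℝ} (ht : t = Complex.exp (-2 * ((a : ℂ) + b * Complex.I))) (k : ℕ) :
    ‖1 - t ^ k‖ = 2 * Real.exp (-(k * a)) * ‖Complex.sinh (k * ((a : ℂ) + b * Complex.I))‖ := by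
  have e1 : t ^ k = Complex.exp (-2 * (k * ((a : ℂ) + b * Complex.I))) := by
    rw [ht, ← Complex.exp_nat_mul]
    congr 1
    ring
  have e2 : 1 - t ^ k = Complex.exp (-(k * ((a : ℂ) + b * Complex.I))) * (2 * Complex.sinh (k * ((a : ℂ) + b * Complex.I))) := by
    obtain ⟨w, hw⟩ : ∃ w, w = (k : ℂ) * ((a : ℂ) + b * Complex.I) := ⟨_, rfl⟩
    rw [e1, ← hw, Complex.sinh, mul_div_cancel₀ _ (two_ne_zero), mul_sub, ← Complex.exp_add, ← Complex.exp_add]
    rw [show -w + w = 0 by ring, Complex.exp_zero, show -w + -w = -2 * w by ring]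
  rw [e2, norm_mul, norm_mul, Complex.norm_exp, Complex.norm_ofNat]
  have e3 : (-((k : ℂ) * ((a : ℂ) + b * Complex.I))).re = -(k * a) := by
    rw [nat_mul_zeta, Complex.neg_re, re_ofReal_add_ofReal_mul_I]
  rw [e3]
  ring

theorem norm_sinh_sq (x y : ℝ) : ‖Complex.sinh ((x : ℂ) + y * Complex.I)‖ ^ 2 = Real.sinh x ^ 2 + Real.sin y ^ 2 := by
  rw [Complex.sq_norm, Complex.normSq_apply]
  obtain ⟨h1, h2⟩ := sinh_re_im x y
  rw [h1, h2]
  have h3 := Real.cosh_sq x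
  have h4 := Real.sin_sq_add_cos_sq y
  nlinarith [h3, h4]

theorem exists_dat {t : ℂ} (h0 : t ≠ 0) (h1 : ‖t‖ < 1) (hk : ‖1 - t‖ ≤ 2 * (1 - ‖t‖)) {r : ℕ} (hh : 1 / 2 ≤ ‖t‖ ^ r) :
    ∃ a b : ℝ, Dat t a b r := by
  have hn0 : 0 < ‖t‖ := norm_pos_iff.2 h0
  refine ⟨-(Real.log ‖t‖ / 2), -(Complex.arg t / 2), ?_⟩
  obtain ⟨a, ha⟩ : ∃ a, a = -(Real.log ‖t‖ / 2) := ⟨_, rfl⟩
  obtain ⟨b, hb⟩ : ∃ b, b = -(Complex.arg t / 2) := ⟨_, rfl⟩
  rw [← ha, ← hb]
  have ha0 : 0 < a := by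
    have := Real.log_neg hn0 h1
    rw [ha]
    linarith
  have hn : ‖t‖ = Real.exp (-(2 * a)) := by
    rw [ha, show -(2 * -(Real.log ‖t‖ / 2)) = Real.log ‖t‖ by ring, Real.exp_log hn0]
  have ht : t = Complex.exp (-2 * ((a : ℂ) + b * Complex.I)) := by
    have e : -2 * ((a : ℂ) + b * Complex.I) = Complex.log t := by
      rw [Complex.log, ha, hb]
      push_cast
      ring
    rw [e, Complex.exp_log h0]
  have ht1 : 1 - t ≠ 0 := by
    intro h
    have h2 : t = 1 := (sub_eq_zero.1 h).symm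
    rw [h2, norm_one] at h1
    exact lt_irrefl _ h1
  have hc := norm_one_sub_pow ht 1
  rw [pow_one, Nat.cast_one, Nat.cast_one, one_mul, one_mul] at hc
  have hz : Complex.sinh ((a : ℂ) + b * Complex.I) ≠ 0 := by
    intro h
    rw [h, norm_zero, mul_zero] at hc
    exact ht1 (norm_eq_zero.1 hc)
  have he : 0 < Real.exp (-a) := Real.exp_pos _
  have hs0 : 0 < Real.sinh a := Real.sinh_pos_iff.2 ha0
  have hz2 : ‖Complex.sinh ((a : ℂ) + b * Complex.I)‖ ≤ 2 * Real.sinh a := by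
    have e : 1 - ‖t‖ = 2 * Real.exp (-a) * Real.sinh a := by
      rw [hn, Real.sinh_eq]
      have e1 : Real.exp (-a) * Real.exp a = 1 := by rw [← Real.exp_add, neg_add_cancel, Real.exp_zero]
      have e2 : Real.exp (-(2 * a)) = Real.exp (-a) * Real.exp (-a) := by rw [← Real.exp_add]; congr 1; ring
      rw [e2]
      linear_combination (-1 : ℝ) * e1
    rw [e, hc] at hk
    have h3 : 2 * Real.exp (-a) * ‖Complex.sinh ((a : ℂ) + b * Complex.I)‖ ≤ 2 * Real.exp (-a) * (2 * Real.sinh a) := by linarith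
    exact le_of_mul_le_mul_left h3 (by positivity)
  refine ⟨ha0, ?_, ht, hn, hz, ?_, ?_⟩
  · rw [hb, abs_neg, abs_div, abs_two]
    have := Complex.abs_arg_le_pi t
    linarith
  · have h3 := norm_sinh_sq a b
    have h4 := pow_le_pow_left₀ (norm_nonneg _) hz2 2
    rw [h3] at h4
    nlinarith
  · rw [hn, ← Real.exp_nat_mul] at hh
    have e : Real.sinh (r * a) ^ 2 = (Real.exp (2 * (r * a)) + Real.exp (-(2 * (r * a))) - 2) / 4 := by
      rw [Real.sinh_eq, div_pow, sub_sq]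
      have e1 : Real.exp (r * a) * Real.exp (-(r * a)) = 1 := by rw [← Real.exp_add, add_neg_cancel, Real.exp_zero]
      have e2 : Real.exp (r * a) ^ 2 = Real.exp (2 * (r * a)) := by rw [← Real.exp_nat_mul]; norm_num
      have e3 : Real.exp (-(r * a)) ^ 2 = Real.exp (-(2 * (r * a))) := by rw [← Real.exp_nat_mul]; congr 1; push_cast; ring
      rw [e2, e3]
      linear_combination (-1 / 2 : ℝ) * e1
    rw [e]
    obtain ⟨u, hu⟩ : ∃ u, u = Real.exp (-(2 * (r * a))) := ⟨_, rfl⟩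
    have e4 : Real.exp (r * -(2 * a)) = u := by rw [hu]; congr 1; ring
    rw [e4] at hh
    have hu0 : 0 < u := by linarith
    have hu1 : u ≤ 1 := by
      rw [hu, Real.exp_le_one_iff]
      have : 0 ≤ (r : ℝ) * a := by positivity
      linarith
    have e5 : Real.exp (2 * (r * a)) = 1 / u := by
      rw [hu, Real.exp_neg, one_div, inv_inv]
    rw [e5, ← hu]
    have h6 : 1 / u + u ≤ 5 / 2 := by
      rw [div_add' _ _ _ hu0.ne', div_le_iff₀ hu0]
      nlinarith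
    linarith

/-- the numerical consequences -/
theorem Dat.bounds {t : ℂ} {a b : ℝ} {r : ℕ} (h : Dat t a b r) (hr1 : 1 ≤ r) :
    (r * Real.sinh a) ^ 2 ≤ 1 / 8 ∧ (r * |Real.sin b|) ^ 2 ≤ 3 / 8 ∧ (r * |b|) ^ 2 ≤ 931 / 1000 ∧ Real.cosh (r * a) ^ 2 ≤ 9 / 8 := by
  have hs : 0 ≤ Real.sinh a := Real.sinh_nonneg_iff.2 h.ha.le
  have h1 : (r * Real.sinh a) ^ 2 ≤ 1 / 8 := (pow_le_pow_left₀ (by positivity) (nat_mul_sinh_le h.ha.le r) 2).trans h.hr
  have h2 : (r * |Real.sin b|) ^ 2 ≤ 3 / 8 := by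
    rw [mul_pow, sq_abs]
    rw [mul_pow] at h1
    have := mul_le_mul_of_nonneg_left h.hsin (sq_nonneg (r : ℝ))
    linarith
  refine ⟨h1, h2, ?_, ?_⟩
  · have h3 : |b| ≤ Real.pi / 2 * |Real.sin b| := by
      have h4 : 2 / Real.pi * |b| ≤ |Real.sin b| := Real.mul_abs_le_abs_sin h.hb
      have hpi := Real.pi_pos
      calc |b| = Real.pi / 2 * (2 / Real.pi * |b|) := by field_simp
        _ ≤ _ := by gcongr
    have h5 : (r * |b|) ^ 2 ≤ (Real.pi / 2) ^ 2 * (r * |Real.sin b|) ^ 2 := by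
      rw [← mul_pow]
      apply pow_le_pow_left₀ (by positivity)
      calc r * |b| ≤ r * (Real.pi / 2 * |Real.sin b|) := by gcongr
        _ = _ := by ring
    have h6 : (Real.pi / 2) ^ 2 ≤ 248066 / 100000 := by
      have := Real.pi_lt_d2
      have hpi := Real.pi_pos
      nlinarith
    calc (r * |b|) ^ 2 ≤ (Real.pi / 2) ^ 2 * (r * |Real.sin b|) ^ 2 := h5
      _ ≤ 248066 / 100000 * (3 / 8) := by gcongr
      _ ≤ _ := by norm_num
  · have h3 := Real.cosh_sq (r * a)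
    have := h.hr
    linarith


/-- `‖w ^ 2 - 1‖` in terms of the imaginary part -/
theorem norm_sq_sub_one (w : ℂ) : ‖w ^ 2 - 1‖ ^ 2 = (‖w‖ ^ 2 - 1) ^ 2 + 4 * w.im ^ 2 := by
  rw [Complex.sq_norm, Complex.sq_norm, Complex.normSq_apply, Complex.normSq_apply]
  have h1 : (w ^ 2 - 1).re = w.re * w.re - w.im * w.im - 1 := by
    rw [sq, Complex.sub_re, Complex.mul_re, Complex.one_re]
  have h2 : (w ^ 2 - 1).im = w.re * w.im + w.im * w.re := by
    rw [sq, Complex.sub_im, Complex.mul_im, Complex.one_im, sub_zero]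
  rw [h1, h2]
  ring

/-- the inequality between the imaginary part and the modulus of `D` -/
theorem D_ineq {t : ℂ} {a b : ℝ} {r : ℕ} (h : Dat t a b r) (hr : 2 ≤ r) :
    2 * |(D ((a : ℂ) + b * Complex.I) r).im| ≤ Real.sinh a * (‖D ((a : ℂ) + b * Complex.I) r‖ ^ 2 - 1) := by
  obtain ⟨hb1, hb2, hb3, hb4⟩ := h.bounds (by omega)
  have hr2 : (2 : ℝ) ≤ r := by exact_mod_cast hr
  have hs : 0 ≤ Real.sinh a := Real.sinh_nonneg_iff.2 h.ha.le
  have him := D_im h.ha.le h.hz (R := r * a) r le_rfl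
  have hyb : (r : ℝ) * |b| ≤ 1 := by
    have h1 : 0 ≤ (r : ℝ) * |b| := by positivity
    nlinarith
  have hre := D_re h.hz r hyb
  obtain ⟨C, hC⟩ : ∃ C, C = Real.cosh (r * a) := ⟨_, rfl⟩
  obtain ⟨σ, hσ⟩ : ∃ σ, σ = |Real.sin b| := ⟨_, rfl⟩
  rw [← hC, ← hσ] at him
  rw [← hC] at hb4
  rw [← hσ] at hb2
  have hC0 : 0 < C := by rw [hC]; exact Real.cosh_pos _
  have hσ0 : 0 ≤ σ := by rw [hσ]; exact abs_nonneg _
  have hC1 : C ≤ 1061 / 1000 := by
    by_contra h1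
    push Not at h1
    nlinarith
  have hσ1 : r * σ ≤ 613 / 1000 := by
    by_contra h1
    push Not at h1
    nlinarith
  have hr3 : (0 : ℝ) ≤ (r : ℝ) ^ 2 - 1 := by nlinarith
  -- imaginary part
  have h1 : 2 * |(D ((a : ℂ) + b * Complex.I) r).im| ≤ Real.sinh a * (434 / 1000 * ((r : ℝ) ^ 2 - 1)) := by
    have e : C * Real.sinh a * σ * (((r : ℝ) ^ 3 - r) / 3) = Real.sinh a * (C * (r * σ) * (((r : ℝ) ^ 2 - 1) / 3)) := by ring
    rw [e] at him
    have h2 : C * (r * σ) ≤ 1061 / 1000 * (613 / 1000) := by gcongr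
    have h3 : C * (r * σ) * (((r : ℝ) ^ 2 - 1) / 3) ≤ 217 / 1000 * ((r : ℝ) ^ 2 - 1) := by
      have h4 := mul_le_mul_of_nonneg_right h2 (by positivity : 0 ≤ ((r : ℝ) ^ 2 - 1) / 3)
      nlinarith
    have h5 := mul_le_mul_of_nonneg_left h3 hs
    nlinarith
  -- real part
  have h2 : 843 / 1000 * (r : ℝ) ≤ (D ((a : ℂ) + b * Complex.I) r).re := by
    have e : b ^ 2 * (((r : ℝ) ^ 3 - r) / 6) = r * ((r * |b|) ^ 2 / 6) - r * b ^ 2 / 6 := by
      rw [mul_pow, sq_abs]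
      ring
    rw [e] at hre
    have h3 : 0 ≤ r * b ^ 2 / 6 := by positivity
    have h4 : r * ((r * |b|) ^ 2 / 6) ≤ r * (931 / 1000 / 6) := by gcongr
    linarith
  have h3 : (843 / 1000 * (r : ℝ)) ^ 2 ≤ ‖D ((a : ℂ) + b * Complex.I) r‖ ^ 2 := by
    apply pow_le_pow_left₀ (by positivity)
    exact h2.trans ((le_abs_self _).trans (Complex.abs_re_le_norm _))
  refine h1.trans ?_
  apply mul_le_mul_of_nonneg_left _ hs
  nlinarith

/-- (R) in terms of hyperbolic sines -/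
theorem sinh_ineq {t : ℂ} {a b : ℝ} {r : ℕ} (h : Dat t a b r) (hr : 2 ≤ r) :
    ‖Complex.sinh ((r - 1 : ℕ) * ((a : ℂ) + b * Complex.I))‖ * ‖Complex.sinh ((r + 1 : ℕ) * ((a : ℂ) + b * Complex.I))‖ +
      Real.cosh a * ‖Complex.sinh ((a : ℂ) + b * Complex.I)‖ ^ 2 ≤
      Real.cosh a * ‖Complex.sinh (r * ((a : ℂ) + b * Complex.I))‖ ^ 2 := by
  have h1 := D_ineq h hr
  obtain ⟨ζ, hζ⟩ : ∃ ζ, ζ = ((a : ℂ) + b * Complex.I) := ⟨_, rfl⟩
  have hz := h.hz
  rw [← hζ] at h1 hz ⊢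
  have e1 : Complex.sinh (r * ζ) = D ζ r * Complex.sinh ζ := by
    unfold D
    rw [div_mul_cancel₀ _ hz]
  have e2 : Complex.sinh ((r - 1 : ℕ) * ζ) * Complex.sinh ((r + 1 : ℕ) * ζ) = (D ζ r ^ 2 - 1) * Complex.sinh ζ ^ 2 := by
    have e3 : ((r - 1 : ℕ) : ℂ) * ζ = r * ζ - ζ := by
      rw [Nat.cast_sub (by omega)]
      push_cast
      ring
    have e4 : ((r + 1 : ℕ) : ℂ) * ζ = r * ζ + ζ := by push_cast; ring
    have e8 : (D ζ r ^ 2 - 1) * Complex.sinh ζ ^ 2 = Complex.sinh (r * ζ) ^ 2 - Complex.sinh ζ ^ 2 := by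
      rw [e1]
      ring
    rw [e3, e4, Complex.sinh_add, Complex.sinh_sub, e8]
    have e5 := Complex.cosh_sq (r * ζ)
    have e6 := Complex.cosh_sq ζ
    have e7 : (Complex.sinh (r * ζ) * Complex.cosh ζ - Complex.cosh (r * ζ) * Complex.sinh ζ) *
        (Complex.sinh (r * ζ) * Complex.cosh ζ + Complex.cosh (r * ζ) * Complex.sinh ζ) =
        Complex.sinh (r * ζ) ^ 2 * Complex.cosh ζ ^ 2 - Complex.cosh (r * ζ) ^ 2 * Complex.sinh ζ ^ 2 := by ring
    rw [e7, e5, e6]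
    ring
  rw [← norm_mul, e2, e1, norm_mul, norm_mul, norm_pow, mul_pow]
  have hs : 0 < Real.sinh a := Real.sinh_pos_iff.2 h.ha
  have hc : 0 < Real.cosh a := Real.cosh_pos a
  have hm : 0 ≤ ‖D ζ r‖ ^ 2 - 1 := by
    by_contra h2
    push Not at h2
    have h3 : Real.sinh a * (‖D ζ r‖ ^ 2 - 1) < 0 := mul_neg_of_pos_of_neg hs h2
    have := abs_nonneg (D ζ r).im
    linarith
  have h2 : ‖D ζ r ^ 2 - 1‖ ≤ Real.cosh a * (‖D ζ r‖ ^ 2 - 1) := by
    apply le_of_sq_le_sq _ (by positivity)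
    rw [norm_sq_sub_one, mul_pow, Real.cosh_sq a]
    have h3 : (2 * |(D ζ r).im|) ^ 2 ≤ (Real.sinh a * (‖D ζ r‖ ^ 2 - 1)) ^ 2 := pow_le_pow_left₀ (by positivity) h1 2
    rw [mul_pow, sq_abs, mul_pow] at h3
    nlinarith
  have h3 : 0 ≤ ‖Complex.sinh ζ‖ ^ 2 := sq_nonneg _
  nlinarith [mul_le_mul_of_nonneg_right h2 h3]

/-- **(R)** -/
theorem R {t : ℂ} (h0 : t ≠ 0) (h1 : ‖t‖ < 1) (hk : ‖1 - t‖ ≤ 2 * (1 - ‖t‖)) {r : ℕ} (hr : 1 ≤ r) (hh : 1 / 2 ≤ ‖t‖ ^ r) :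
    2 * √‖t‖ * (‖1 - t ^ (r - 1)‖ * ‖1 - t ^ (r + 1)‖) + ‖t‖ ^ (r - 1) * (1 + ‖t‖) * ‖1 - t‖ ^ 2 ≤ (1 + ‖t‖) * ‖1 - t ^ r‖ ^ 2 := by
  rcases Nat.lt_or_ge r 2 with h2 | h2
  · obtain rfl : r = 1 := by omega
    simp
  obtain ⟨a, b, h⟩ := exists_dat h0 h1 hk hh
  have hR := sinh_ineq h h2
  have c0 := norm_one_sub_pow h.ht (r - 1)
  have c1 := norm_one_sub_pow h.ht r
  have c2 := norm_one_sub_pow h.ht (r + 1)
  have c3 := norm_one_sub_pow h.ht 1
  rw [pow_one, Nat.cast_one, Nat.cast_one, one_mul, one_mul] at c3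
  rw [c0, c1, c2, c3, h.hn]
  obtain ⟨X, hX⟩ : ∃ X, X = ‖Complex.sinh ((r - 1 : ℕ) * ((a : ℂ) + b * Complex.I))‖ := ⟨_, rfl⟩
  obtain ⟨Y, hY⟩ : ∃ Y, Y = ‖Complex.sinh ((r + 1 : ℕ) * ((a : ℂ) + b * Complex.I))‖ := ⟨_, rfl⟩
  obtain ⟨Z, hZ⟩ : ∃ Z, Z = ‖Complex.sinh (r * ((a : ℂ) + b * Complex.I))‖ := ⟨_, rfl⟩
  obtain ⟨W, hW⟩ : ∃ W, W = ‖Complex.sinh ((a : ℂ) + b * Complex.I)‖ := ⟨_, rfl⟩
  rw [← hX, ← hY, ← hZ, ← hW] at hR
  rw [← hX, ← hY, ← hZ, ← hW]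
  obtain ⟨q, hq⟩ : ∃ q, q = Real.exp (-a) := ⟨_, rfl⟩
  have hq0 : 0 < q := by rw [hq]; exact Real.exp_pos _
  have e1 : Real.exp (-(2 * a)) = q ^ 2 := by rw [hq, ← Real.exp_nat_mul]; congr 1; push_cast; ring
  have e2 : ∀ k : ℕ, Real.exp (-(k * a)) = q ^ k := by
    intro k
    rw [hq, ← Real.exp_nat_mul]
    congr 1
    ring
  have e3 : 2 * q * Real.cosh a = 1 + q ^ 2 := by
    rw [Real.cosh_eq]
    have e4 : q * Real.exp a = 1 := by rw [hq, ← Real.exp_add, neg_add_cancel, Real.exp_zero]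
    rw [← hq]
    linear_combination e4
  rw [e1, e2, e2, e2, ← hq, Real.sqrt_sq hq0.le]
  obtain ⟨m, rfl⟩ : ∃ m, r = m + 1 := ⟨r - 1, by omega⟩
  rw [Nat.add_sub_cancel]
  have e5 : 2 * q * (2 * q ^ m * X * (2 * q ^ (m + 1 + 1) * Y)) + (q ^ 2) ^ m * (1 + q ^ 2) * (2 * q * W) ^ 2 =
      8 * q * q ^ (2 * m + 2) * (X * Y + Real.cosh a * W ^ 2) := by
    rw [← e3]
    ring
  have e6 : (1 + q ^ 2) * (2 * q ^ (m + 1) * Z) ^ 2 = 8 * q * q ^ (2 * m + 2) * (Real.cosh a * Z ^ 2) := by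
    rw [← e3]
    ring
  rw [e5, e6]
  gcongr


/-- the comparison of consecutive hyperbolic sines -/
theorem alpha_aux {t : ℂ} {a b : ℝ} {r : ℕ} (h : Dat t a b r) (hr : 1 ≤ r) :
    Real.sinh ((r + 1) * a) * |Real.sin ((r - 1) * b)| ≤ Real.sinh (r * a) * |Real.sin ((r + 1) * b)| := by
  obtain ⟨hb1, hb2, hb3, hb4⟩ := h.bounds hr
  have hr1 : (1 : ℝ) ≤ r := by exact_mod_cast hr
  have ha := h.ha
  -- pass to `β = |b|`
  obtain ⟨β, hβ⟩ : ∃ β, β = |b| := ⟨_, rfl⟩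
  have habs : ∀ x : ℝ, |Real.sin (x * b)| = |Real.sin (x * β)| := by
    intro x
    rcases abs_choice b with h1 | h1
    · rw [hβ, h1]
    · rw [hβ, h1, mul_neg, Real.sin_neg, abs_neg]
  rw [habs, habs]
  rw [← hβ] at hb3
  have hβ0 : 0 ≤ β := by rw [hβ]; exact abs_nonneg _
  have hy1 : r * β ≤ 1 := by
    have : 0 ≤ r * β := by positivity
    nlinarith
  have hβ1 : β ≤ 1 := by nlinarith
  have hpi := Real.pi_gt_three
  have hs1 : 0 ≤ Real.sin ((r - 1) * β) := by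
    apply Real.sin_nonneg_of_nonneg_of_le_pi
    · exact mul_nonneg (by linarith) hβ0
    · nlinarith
  have hs2 : 0 ≤ Real.sin ((r + 1) * β) := by
    apply Real.sin_nonneg_of_nonneg_of_le_pi
    · positivity
    · nlinarith
  rw [abs_of_nonneg hs1, abs_of_nonneg hs2]
  have hsb : 0 ≤ Real.sin β := Real.sin_nonneg_of_nonneg_of_le_pi hβ0 (by linarith)
  have hsr : 0 ≤ Real.sin (r * β) := Real.sin_nonneg_of_nonneg_of_le_pi (by positivity) (by linarith)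
  have hsr2 : Real.sin (r * β) ≤ r * Real.sin β := by
    have := abs_sin_nat β r
    rw [abs_of_nonneg hsr, abs_of_nonneg hsb] at this
    exact this
  have hcb : Real.cos β ≤ 1 := Real.cos_le_one β
  have hcb0 : 0 ≤ Real.cos β := Real.cos_nonneg_of_neg_pi_div_two_le_of_le (by linarith) (by linarith)
  have hcr : 534 / 1000 ≤ Real.cos (r * β) := by
    have := Real.one_sub_sq_div_two_le_cos (x := r * β)
    linarith
  obtain ⟨x, hx⟩ : ∃ x, x = Real.sinh (r * a) := ⟨_, rfl⟩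
  obtain ⟨C, hC⟩ : ∃ C, C = Real.cosh (r * a) := ⟨_, rfl⟩
  obtain ⟨s, hs⟩ : ∃ s, s = Real.sinh a := ⟨_, rfl⟩
  obtain ⟨c, hc⟩ : ∃ c, c = Real.cosh a := ⟨_, rfl⟩
  have hx0 : 0 < x := by rw [hx]; exact Real.sinh_pos_iff.2 (by positivity)
  have hs0 : 0 < s := by rw [hs]; exact Real.sinh_pos_iff.2 ha
  have hc1 : 1 ≤ c := by rw [hc]; exact Real.one_le_cosh a
  have hC0 : 0 < C := by rw [hC]; exact Real.cosh_pos _
  rw [← hC] at hb4
  rw [← hs] at hb1
  have hC1 : C ≤ 1061 / 1000 := by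
    by_contra h1
    push Not at h1
    nlinarith
  have hrs : r * s ≤ x := by
    rw [hs, hx]
    exact nat_mul_sinh_le ha.le r
  have hxs : x ≤ r * s * C := by
    rw [hs, hx, hC]
    exact sinh_nat_le ha.le r
  have hcs : c ^ 2 = s ^ 2 + 1 := by rw [hc, hs]; exact Real.cosh_sq a
  have e1 : Real.sinh ((r + 1) * a) = x * c + C * s := by
    rw [add_mul, one_mul, Real.sinh_add, ← hx, ← hC, ← hs, ← hc]
  have e2 : Real.sin ((r + 1) * β) = Real.sin (r * β) * Real.cos β + Real.cos (r * β) * Real.sin β := by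
    rw [add_mul, one_mul, Real.sin_add]
  have e3 : Real.sin ((r - 1) * β) = Real.sin (r * β) * Real.cos β - Real.cos (r * β) * Real.sin β := by
    rw [sub_mul, one_mul, Real.sin_sub]
  rw [e1, e2, e3, ← hx]
  -- main estimate
  have k1 : r * (x * (c - 1) + C * s) ≤ 534 / 1000 * (x * (1 + c) + C * s) := by
    have h1 : r * (C * s) ≤ 1061 / 1000 * x := by
      calc r * (C * s) = C * (r * s) := by ring
        _ ≤ 1061 / 1000 * x := by gcongr
    have h2 : (r * (c - 1)) ≤ 1 / 16 / r := by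
      rw [le_div_iff₀ (by linarith)]
      have h3 : c - 1 ≤ s ^ 2 / 2 := by nlinarith
      have h4 : r * (c - 1) * r ≤ r * (s ^ 2 / 2) * r := by gcongr
      nlinarith
    have h3 : x * (1 / r) ≤ C * s := by
      rw [mul_one_div, div_le_iff₀ (by linarith)]
      linarith
    have h4 : r * (x * (c - 1)) ≤ x * (1 / r) * (1 / 16) := by
      calc r * (x * (c - 1)) = x * (r * (c - 1)) := by ring
        _ ≤ x * (1 / 16 / r) := by gcongr
        _ = _ := by ring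
    have h5 : x * 2 ≤ x * (1 + c) := by
      apply mul_le_mul_of_nonneg_left (by linarith) hx0.le
    have h6 : 0 ≤ x * (1 / r) := by positivity
    have e4 : r * (x * (c - 1) + C * s) = r * (x * (c - 1)) + r * (C * s) := by ring
    have e5 : 534 / 1000 * (x * (1 + c) + C * s) = 534 / 1000 * (x * (1 + c)) + 534 / 1000 * (C * s) := by ring
    rw [e4, e5]
    linarith
  have k2 : Real.sin (r * β) * Real.cos β * (x * (c - 1) + C * s) ≤ Real.cos (r * β) * Real.sin β * (x * (1 + c) + C * s) := by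
    have hp : 0 ≤ x * (c - 1) + C * s := add_nonneg (mul_nonneg hx0.le (by linarith)) (by positivity)
    have hq : 0 ≤ x * (1 + c) + C * s := by positivity
    calc Real.sin (r * β) * Real.cos β * (x * (c - 1) + C * s) ≤ (r * Real.sin β) * 1 * (x * (c - 1) + C * s) := by gcongr
      _ = Real.sin β * (r * (x * (c - 1) + C * s)) := by ring
      _ ≤ Real.sin β * (534 / 1000 * (x * (1 + c) + C * s)) := by gcongr
      _ = 534 / 1000 * Real.sin β * (x * (1 + c) + C * s) := by ring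
      _ ≤ Real.cos (r * β) * Real.sin β * (x * (1 + c) + C * s) := by gcongr
  have e6 : (x * c + C * s) * (Real.sin (r * β) * Real.cos β - Real.cos (r * β) * Real.sin β) =
      x * (Real.sin (r * β) * Real.cos β + Real.cos (r * β) * Real.sin β) +
      (Real.sin (r * β) * Real.cos β * (x * (c - 1) + C * s) - Real.cos (r * β) * Real.sin β * (x * (1 + c) + C * s)) := by ring
  rw [e6]
  linarith

/-- **(α)** -/
theorem alpha {t : ℂ} (h0 : t ≠ 0) (h1 : ‖t‖ < 1) (hk : ‖1 - t‖ ≤ 2 * (1 - ‖t‖)) {r : ℕ} (hr : 1 ≤ r) (hh : 1 / 2 ≤ ‖t‖ ^ r) :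
    √‖t‖ * (1 - ‖t‖ ^ (r + 1)) * ‖1 - t ^ (r - 1)‖ < (1 - ‖t‖ ^ r) * ‖1 - t ^ (r + 1)‖ := by
  obtain ⟨a, b, h⟩ := exists_dat h0 h1 hk hh
  have hA := alpha_aux h hr
  have ha := h.ha
  have hr1 : (1 : ℝ) ≤ r := by exact_mod_cast hr
  have c0 := norm_one_sub_pow h.ht (r - 1)
  have c2 := norm_one_sub_pow h.ht (r + 1)
  rw [c0, c2, h.hn]
  have n0 := norm_sinh_sq ((r - 1 : ℕ) * a) ((r - 1 : ℕ) * b)
  have n2 := norm_sinh_sq ((r + 1 : ℕ) * a) ((r + 1 : ℕ) * b)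
  rw [← nat_mul_zeta] at n0 n2
  obtain ⟨X, hX⟩ : ∃ X, X = ‖Complex.sinh ((r - 1 : ℕ) * ((a : ℂ) + b * Complex.I))‖ := ⟨_, rfl⟩
  obtain ⟨Y, hY⟩ : ∃ Y, Y = ‖Complex.sinh ((r + 1 : ℕ) * ((a : ℂ) + b * Complex.I))‖ := ⟨_, rfl⟩
  rw [← hX] at n0
  rw [← hY] at n2
  rw [← hX, ← hY]
  have hX0 : 0 ≤ X := by rw [hX]; exact norm_nonneg _
  have hY0 : 0 ≤ Y := by rw [hY]; exact norm_nonneg _
  have cr : ((r - 1 : ℕ) : ℝ) = r - 1 := by
    rw [Nat.cast_sub hr]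
    simp
  have cr2 : ((r + 1 : ℕ) : ℝ) = r + 1 := by push_cast; ring
  rw [cr] at n0
  rw [cr2] at n2
  obtain ⟨u, hu⟩ : ∃ u, u = Real.sinh ((r + 1) * a) := ⟨_, rfl⟩
  obtain ⟨v, hv⟩ : ∃ v, v = Real.sinh (r * a) := ⟨_, rfl⟩
  obtain ⟨w, hw⟩ : ∃ w, w = Real.sinh ((r - 1) * a) := ⟨_, rfl⟩
  rw [← hw] at n0
  rw [← hu] at n2 hA
  rw [← hv] at hA
  have hv0 : 0 < v := by rw [hv]; exact Real.sinh_pos_iff.2 (by positivity)
  have hu0 : 0 < u := by rw [hu]; exact Real.sinh_pos_iff.2 (by positivity)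
  have hw0 : 0 ≤ w := by rw [hw]; exact Real.sinh_nonneg_iff.2 (mul_nonneg (by linarith) ha.le)
  have hwv : w < v := by
    rw [hw, hv, Real.sinh_lt_sinh]
    nlinarith
  have key : u * X < v * Y := by
    apply lt_of_pow_lt_pow_left₀ 2 (by positivity)
    rw [mul_pow, mul_pow, n0, n2]
    have h1 := pow_le_pow_left₀ (mul_nonneg hu0.le (abs_nonneg _)) hA 2
    rw [mul_pow, mul_pow, sq_abs, sq_abs] at h1
    have h2 : w ^ 2 < v ^ 2 := pow_lt_pow_left₀ hwv hw0 (by norm_num)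
    have h3 : u ^ 2 * w ^ 2 < u ^ 2 * v ^ 2 := mul_lt_mul_of_pos_left h2 (by positivity)
    nlinarith
  obtain ⟨q, hq⟩ : ∃ q, q = Real.exp (-a) := ⟨_, rfl⟩
  have hq0 : 0 < q := by rw [hq]; exact Real.exp_pos _
  have e1 : Real.exp (-(2 * a)) = q ^ 2 := by rw [hq, ← Real.exp_nat_mul]; congr 1; push_cast; ring
  have e2 : ∀ k : ℕ, Real.exp (-(k * a)) = q ^ k := by
    intro k
    rw [hq, ← Real.exp_nat_mul]
    congr 1
    ring
  have e3 : ∀ k : ℕ, 1 - (q ^ 2) ^ k = 2 * q ^ k * Real.sinh (k * a) := by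
    intro k
    rw [Real.sinh_eq, e2]
    have e4 : q ^ k * Real.exp (k * a) = 1 := by
      rw [← e2, ← Real.exp_add, neg_add_cancel, Real.exp_zero]
    linear_combination (-1 : ℝ) * e4
  rw [e1, e2, e2, Real.sqrt_sq hq0.le, e3, e3, cr2, ← hu, ← hv]
  obtain ⟨m, rfl⟩ : ∃ m, r = m + 1 := ⟨r - 1, by omega⟩
  rw [Nat.add_sub_cancel]
  have e5 : q * (2 * q ^ (m + 1 + 1) * u) * (2 * q ^ m * X) = 4 * q ^ (2 * m + 3) * (u * X) := by ring
  have e6 : 2 * q ^ (m + 1) * v * (2 * q ^ (m + 1 + 1) * Y) = 4 * q ^ (2 * m + 3) * (v * Y) := by ring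
  rw [e5, e6]
  exact mul_lt_mul_of_pos_left key (by positivity)

end Pool.Agent.Helper27.LZ
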